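import Mathlib
import Pool.Agent.H40.SQ.FAvg

/-!
# MP_e9d30c_pr: average-case rapid mixing of the square add/remove chain

All definitions used by the statement are in this file.  `result`: for every `a` there is `k` such
that for all `n ≥ 2`, all `0 < lam ≤ 10^(-12)` and all `t ≥ n^k / lam^5` the chain started from a
`π`-random configuration `γ` satisfies `∑ γ, π(γ) ‖P^t(γ,·) - π‖_TV ≤ n^(-a)`.
-/

set_option autoImplicit false

namespace Pool.Agent.Results.MP_e9d30c_pr.AverageCaseMixing

noncomputable section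

/-- The edges of the square lattice: `(false,i,j)` is the horizontal edge from the vertex `(i,j)`
to `(i+1,j)`, `(true,i,j)` is the vertical edge from `(i,j)` to `(i,j+1)`. -/
abbrev Edge := Bool × ℤ × ℤ

/-- The four boundary edges of the unit square with lower left corner `c`. -/
def square (c : ℤ × ℤ) : Finset Edge :=
  {(false, c.1, c.2), (false, c.1, c.2 + 1), (true, c.1, c.2), (true, c.1 + 1, c.2)}

/-- The (lower left corners of the) `n²` unit squares of the grid `G_n`. -/
def faces (n : ℕ) : Finset (ℤ × ℤ) := Finset.Ico 0 (n : ℤ) ×ˢ Finset.Ico 0 (n : ℤ)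

/-- The edges of the grid `G_n`. -/
def edges (n : ℕ) : Finset Edge := (faces n).biUnion square

/-- The moves of the chain: adding or removing the boundary of a unit square. -/
def Move (n : ℕ) (γ γ' : Finset Edge) : Prop :=
  ∃ c ∈ faces n, (square c ∩ γ = ∅ ∧ γ' = γ ∪ square c) ∨ (square c ⊆ γ ∧ γ' = γ \ square c)

open Classical in
/-- The state space: the configurations reachable from the empty one. -/
def Omega (n : ℕ) : Finset (Finset Edge) :=
  (edges n).powerset.filter (fun γ => Relation.ReflTransGen (Move n) ∅ γ)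

/-- The transition probabilities of the chain. -/
def P (lam : ℝ) (n : ℕ) (γ γ' : Finset Edge) : ℝ :=
  ∑ c ∈ faces n, (1 / (n : ℝ) ^ 2) *
    (if square c ∩ γ = ∅ then
        lam * (if γ' = γ ∪ square c then (1 : ℝ) else 0) + (1 - lam) * (if γ' = γ then (1 : ℝ) else 0)
      else if square c ⊆ γ then (if γ' = γ \ square c then (1 : ℝ) else 0)
      else (if γ' = γ then (1 : ℝ) else 0))

/-- The law of the chain started from `γ₀` after `t` steps. -/
def law (lam : ℝ) (n : ℕ) (γ₀ : Finset Edge) : ℕ → Finset Edge → ℝ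
  | 0 => fun γ => if γ = γ₀ then 1 else 0
  | t + 1 => fun γ' => ∑ γ ∈ (edges n).powerset, law lam n γ₀ t γ * P lam n γ γ'

/-- The stationary distribution `π(γ) = lam^(|γ|/4) / Z`. -/
def stat (lam : ℝ) (n : ℕ) (γ : Finset Edge) : ℝ :=
  lam ^ ((γ.card : ℝ) / 4) / ∑ η ∈ Omega n, lam ^ ((η.card : ℝ) / 4)

/-- The total variation distance of two distributions on the state space. -/
def tv (n : ℕ) (μ ν : Finset Edge → ℝ) : ℝ := (1 / 2) * ∑ γ ∈ Omega n, |μ γ - ν γ|

theorem law_eq (lam : ℝ) (n : ℕ) (γ₀ : Finset Edge) (t : ℕ) :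
    law lam n γ₀ t = Pool.Agent.H40.SQ.law lam n γ₀ t := by
  induction t with
  | zero => rfl
  | succ t ih =>
    funext γ'
    simp only [law, Pool.Agent.H40.SQ.law]
    rw [ih]
    rfl

/-- **Average-case rapid mixing.** -/
theorem result (a : ℕ) : ∃ k : ℕ, ∀ n : ℕ, 2 ≤ n → ∀ lam : ℝ, 0 < lam → lam ≤ 1 / 10 ^ 12 →
    ∀ t : ℕ, (n : ℝ) ^ k ≤ lam ^ 5 * t →
      ∑ γ ∈ Omega n, stat lam n γ * tv n (law lam n γ t) (stat lam n) ≤ 1 / (n : ℝ) ^ a := by
  obtain ⟨k, hk⟩ := Pool.Agent.H40.SQ.average_mixing a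
  refine ⟨k, fun n hn lam h0 h1 t ht => ?_⟩
  have h := hk n hn lam h0 h1 t ht
  simp only [law_eq]
  exact h

end

end Pool.Agent.Results.MP_e9d30c_pr.AverageCaseMixing
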