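import Mathlib
import Pool.Agent.H40.WM.Own

/-!
# MP_e9d30c_pr: rapid mixing of the square add/remove chain

All definitions used by the statement are in this file.  `result`: for every intensity
`0 < lam < 36^(-8000)` there are `C` and `k` such that for all `n ≥ 1` the mixing time
`t_mix(n, lam)` (the least `t` with `max_γ ‖P^t(γ,·) - π‖_TV ≤ 1/4`) is at most `C * n^k`, and the
distance to the stationary distribution is at most `4^(-j)` at all times `t ≥ j * C * n^k`.
-/

set_option autoImplicit false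

namespace Pool.Agent.Results.MP_e9d30c_pr.RapidMixing

noncomputable section

/-- The edges of the square lattice: `(false,i,j)` is the horizontal edge from the vertex `(i,j)`
to `(i+1,j)`, `(true,i,j)` is the vertical edge from `(i,j)` to `(i,j+1)`. -/
abbrev Edge := Bool × ℤ × ℤ

/-- The four boundary edges of the unit square with lower left corner `c`. -/
def square (c : ℤ × ℤ) : Finset Edge :=
  {(false, c.1, c.2), (false, c.1, c.2 + 1), (true, c.1, c.2), (true, c.1 + 1, c.2)}

/-- The (lower left corners of the) `n²` unit squares of the grid `G_n`. -/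
def faces (n : ℕ) : Finset (ℤ × ℤ) := Finset.Ico 0 (n : ℤ) ×ˢ Finset.Ico 0 (n : ℤ)

/-- The edges of the grid `G_n`. -/
def edges (n : ℕ) : Finset Edge := (faces n).biUnion square

/-- The moves of the chain: adding or removing the boundary of a unit square. -/
def Move (n : ℕ) (γ γ' : Finset Edge) : Prop :=
  ∃ c ∈ faces n, (square c ∩ γ = ∅ ∧ γ' = γ ∪ square c) ∨ (square c ⊆ γ ∧ γ' = γ \ square c)

open Classical in
/-- The state space: the configurations reachable from the empty one. -/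
def Omega (n : ℕ) : Finset (Finset Edge) :=
  (edges n).powerset.filter (fun γ => Relation.ReflTransGen (Move n) ∅ γ)

/-- The transition probabilities of the chain. -/
def P (lam : ℝ) (n : ℕ) (γ γ' : Finset Edge) : ℝ :=
  ∑ c ∈ faces n, (1 / (n : ℝ) ^ 2) *
    (if square c ∩ γ = ∅ then
        lam * (if γ' = γ ∪ square c then (1 : ℝ) else 0) + (1 - lam) * (if γ' = γ then (1 : ℝ) else 0)
      else if square c ⊆ γ then (if γ' = γ \ square c then (1 : ℝ) else 0)
      else (if γ' = γ then (1 : ℝ) else 0))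

/-- The law `P^t(γ₀, ·)` of the chain started from `γ₀` after `t` steps. -/
def law (lam : ℝ) (n : ℕ) (γ₀ : Finset Edge) : ℕ → Finset Edge → ℝ
  | 0 => fun γ => if γ = γ₀ then 1 else 0
  | t + 1 => fun γ' => ∑ γ ∈ (edges n).powerset, law lam n γ₀ t γ * P lam n γ γ'

/-- The stationary distribution `π(γ) = lam^(|γ|/4) / Z`. -/
def stat (lam : ℝ) (n : ℕ) (γ : Finset Edge) : ℝ :=
  lam ^ ((γ.card : ℝ) / 4) / ∑ η ∈ Omega n, lam ^ ((η.card : ℝ) / 4)

/-- The total variation distance of two distributions on the state space. -/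
def tv (n : ℕ) (μ ν : Finset Edge → ℝ) : ℝ := (1 / 2) * ∑ γ ∈ Omega n, |μ γ - ν γ|

/-- `T` is the mixing time: the least time at which the distance to the stationary distribution is
at most `1/4` from every starting configuration of the state space. -/
def IsMixingTime (lam : ℝ) (n T : ℕ) : Prop :=
  IsLeast {t : ℕ | ∀ γ ∈ Omega n, tv n (law lam n γ t) (stat lam n) ≤ 1 / 4} T

theorem law_eq (lam : ℝ) (n : ℕ) (γ₀ : Finset Edge) (t : ℕ) :
    law lam n γ₀ t = Pool.Agent.H40.SQ.law lam n γ₀ t := by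
  induction t with
  | zero => rfl
  | succ t ih =>
    funext γ'
    simp only [law, Pool.Agent.H40.SQ.law]
    rw [ih]
    rfl

theorem omega_eq (n : ℕ) : Omega n = Pool.Agent.H40.SQ.Om n := Pool.Agent.H40.SQ.Reach_eq n

/-- **Rapid mixing of the square add/remove chain for every small intensity.** -/
theorem result (lam : ℝ) (h0 : 0 < lam) (h1 : lam < 1 / 36 ^ 8000) :
    ∃ (C : ℝ) (k : ℕ), ∀ n : ℕ, 1 ≤ n →
      (∃ T : ℕ, IsMixingTime lam n T ∧ (T : ℝ) ≤ C * (n : ℝ) ^ k) ∧
      ∀ j t : ℕ, (j : ℝ) * (C * (n : ℝ) ^ k) ≤ (t : ℝ) →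
        ∀ γ ∈ Omega n, tv n (law lam n γ t) (stat lam n) ≤ (1 / 4) ^ j := by
  classical
  obtain ⟨C, k, h⟩ := Pool.Agent.H40.WM.rapid lam h0 h1
  refine ⟨C, k, fun n hn => ?_⟩
  obtain ⟨⟨T, hT1, hT2⟩, h3⟩ := h n hn
  have hT3 : ∀ γ ∈ Omega n, tv n (law lam n γ T) (stat lam n) ≤ 1 / 4 := by
    intro γ hγ
    rw [omega_eq] at hγ
    rw [law_eq]
    exact hT2 γ hγ
  refine ⟨?_, ?_⟩
  · have hex : ∃ t : ℕ, ∀ γ ∈ Omega n, tv n (law lam n γ t) (stat lam n) ≤ 1 / 4 := ⟨T, hT3⟩
    refine ⟨Nat.find hex, ⟨Nat.find_spec hex, fun t ht => Nat.find_min' hex ht⟩, ?_⟩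
    have h4 : Nat.find hex ≤ T := Nat.find_min' hex hT3
    have h5 : ((Nat.find hex : ℕ) : ℝ) ≤ (T : ℝ) := by exact_mod_cast h4
    exact h5.trans hT1
  · intro j t hjt γ hγ
    rw [omega_eq] at hγ
    rw [law_eq]
    exact h3 j t hjt γ hγ

end

end Pool.Agent.Results.MP_e9d30c_pr.RapidMixing
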